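import Pool.Agent.Helper67.NO.St5

/-!
# Project NO: module DAD
-/

set_option autoImplicit false

namespace Pool.Agent.Helper6.NO

open Pool.Agent.Helper67.NO Matrix

universe u

section series

variable {A : Type} [NormedRing A] [NormedAlgebra ℂ A] [CompleteSpace A]

private theorem hs_alg (Z : A) :
    HasSum (fun k : ℕ => ((Nat.factorial k : ℂ)⁻¹) • Z ^ k) (NormedSpace.exp Z) :=
  NormedSpace.exp_series_hasSum_exp' Z

private noncomputable def LL (Z : A) : A →L[ℂ] A := ContinuousLinearMap.mul ℂ A Z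

private noncomputable def RR (Z : A) : A →L[ℂ] A := (ContinuousLinearMap.mul ℂ A).flip Z

private theorem LL_apply (Z W : A) : LL Z W = Z * W := rfl
private theorem RR_apply (Z W : A) : RR Z W = W * Z := rfl

private theorem LL_pow (Z W : A) (k : ℕ) : (LL Z ^ k) W = Z ^ k * W := by
  induction k with
  | zero => simp
  | succ k ih =>
    rw [pow_succ']
    show LL Z ((LL Z ^ k) W) = _
    rw [ih, LL_apply, pow_succ', mul_assoc]

private theorem RR_pow (Z W : A) (k : ℕ) : (RR Z ^ k) W = W * Z ^ k := by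
  induction k with
  | zero => simp
  | succ k ih =>
    rw [pow_succ']
    show RR Z ((RR Z ^ k) W) = _
    rw [ih, RR_apply, pow_succ, mul_assoc]

private theorem hs_clm (T : A →L[ℂ] A) (W : A) :
    HasSum (fun k : ℕ => ((Nat.factorial k : ℂ)⁻¹) • (T ^ k) W) ((NormedSpace.exp T) W) := by
  have h : HasSum (fun k : ℕ => ((Nat.factorial k : ℂ)⁻¹) • T ^ k) (NormedSpace.exp T) :=
    NormedSpace.exp_series_hasSum_exp' T
  exact (ContinuousLinearMap.apply ℂ A W).hasSum h

private theorem exp_LL (Z W : A) : (NormedSpace.exp (LL Z)) W = NormedSpace.exp Z * W := by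
  have h1 := hs_clm (LL Z) W
  have h2 := (hs_alg Z).mul_right W
  refine h1.unique ?_
  simpa only [LL_pow, smul_mul_assoc] using h2

private theorem exp_RR (Z W : A) : (NormedSpace.exp (RR Z)) W = W * NormedSpace.exp Z := by
  have h1 := hs_clm (RR Z) W
  have h2 := (hs_alg Z).mul_left W
  refine h1.unique ?_
  simpa only [RR_pow, mul_smul_comm] using h2

private theorem exp_br (Z W : A) (c : ℕ → A) (h0 : c 0 = W) (hc : ∀ k, c (k + 1) = Z * c k - c k * Z) :
    HasSum (fun k : ℕ => ((Nat.factorial k : ℂ)⁻¹) • c k) (NormedSpace.exp Z * W * NormedSpace.exp (-Z)) := by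
  have hcomm : Commute (LL Z) (RR (-Z)) := by
    ext1 V
    show LL Z (RR (-Z) V) = RR (-Z) (LL Z V)
    rw [LL_apply, LL_apply, RR_apply, RR_apply, mul_assoc]
  have h1 : (NormedSpace.exp (LL Z + RR (-Z))) W = NormedSpace.exp Z * W * NormedSpace.exp (-Z) := by
    rw [NormedSpace.exp_add_of_commute_of_mem_ball (𝕂 := ℂ) hcomm
      (by rw [NormedSpace.expSeries_radius_eq_top]; simp) (by rw [NormedSpace.expSeries_radius_eq_top]; simp)]
    show (NormedSpace.exp (LL Z)) ((NormedSpace.exp (RR (-Z))) W) = _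
    rw [exp_RR, exp_LL, mul_assoc]
  have h2 : ∀ k, ((LL Z + RR (-Z)) ^ k) W = c k := by
    intro k
    induction k with
    | zero =>
      rw [h0]
      rfl
    | succ k ih =>
      rw [pow_succ']
      show (LL Z + RR (-Z)) (((LL Z + RR (-Z)) ^ k) W) = _
      rw [ih, hc]
      show LL Z (c k) + RR (-Z) (c k) = _
      rw [LL_apply, RR_apply, mul_neg, sub_eq_add_neg]
  have h3 := hs_clm (LL Z + RR (-Z)) W
  rw [h1] at h3
  simpa only [h2] using h3

end series

section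

variable {n : Type} [Fintype n] [DecidableEq n] {g : Type u} [LieRing g] [LieAlgebra ℂ g]

private theorem adM_apply (b : Module.Basis n ℂ g) (x : g) :
    adM b x = LinearMap.toMatrix b b (LieAlgebra.ad ℂ g x) := rfl

private theorem ad_bracket (x y : g) : (LieAlgebra.ad ℂ g ⁅x, y⁆ : g →ₗ[ℂ] g) =
    (LieAlgebra.ad ℂ g x : g →ₗ[ℂ] g) ∘ₗ (LieAlgebra.ad ℂ g y : g →ₗ[ℂ] g) -
      (LieAlgebra.ad ℂ g y : g →ₗ[ℂ] g) ∘ₗ (LieAlgebra.ad ℂ g x : g →ₗ[ℂ] g) := by
  apply LinearMap.ext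
  intro z
  show ⁅⁅x, y⁆, z⁆ = ⁅x, ⁅y, z⁆⁆ - ⁅y, ⁅x, z⁆⁆
  exact lie_lie x y z

private theorem adM_bracket (b : Module.Basis n ℂ g) (x y : g) :
    adM b ⁅x, y⁆ = adM b x * adM b y - adM b y * adM b x := by
  show LinearMap.toMatrix b b (LieAlgebra.ad ℂ g ⁅x, y⁆ : g →ₗ[ℂ] g) = _
  rw [ad_bracket, map_sub, LinearMap.toMatrix_comp b b b, LinearMap.toMatrix_comp b b b]
  rfl

end

open scoped Matrix.Norms.Frobenius

private theorem hs_mat {n : Type} [Fintype n] [DecidableEq n] (Z : Matrix n n ℂ) :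
    HasSum (fun k : ℕ => ((Nat.factorial k : ℂ)⁻¹) • Z ^ k) (NormedSpace.exp Z) :=
  hs_alg Z

private theorem exp_brM {n : Type} [Fintype n] [DecidableEq n] (Z W : Matrix n n ℂ) (c : ℕ → Matrix n n ℂ)
    (h0 : c 0 = W) (hc : ∀ k, c (k + 1) = Z * c k - c k * Z) :
    HasSum (fun k : ℕ => ((Nat.factorial k : ℂ)⁻¹) • c k) (NormedSpace.exp Z * W * NormedSpace.exp (-Z)) :=
  exp_br Z W c h0 hc

section

variable {g : Type u} [LieRing g] [LieAlgebra ℂ g] [FiniteDimensional ℂ g]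

/-- sums for `expAd` under a linear map -/
private theorem hs_expAd {n : Type} [Fintype n] [DecidableEq n]
    (f : (g →ₗ[ℂ] g) →ₗ[ℂ] Matrix n n ℂ) (x : g) :
    HasSum (fun k : ℕ => ((Nat.factorial k : ℂ)⁻¹) • f ((LieAlgebra.ad ℂ g x : Module.End ℂ g) ^ k)) (f (expAd x)) := by
  set e := Module.finBasis ℂ g with he
  have h1 := hs_mat (LinearMap.toMatrix e e (LieAlgebra.ad ℂ g x))
  let ψ : Matrix (Fin (Module.finrank ℂ g)) (Fin (Module.finrank ℂ g)) ℂ →ₗ[ℂ] Matrix n n ℂ :=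
    f ∘ₗ (Matrix.toLin e e).toLinearMap
  have hψ : Continuous ψ := LinearMap.continuous_of_finiteDimensional ψ
  have h2 := h1.map ψ hψ
  have h3 : ∀ k : ℕ, ψ (((Nat.factorial k : ℂ)⁻¹) • (LinearMap.toMatrix e e (LieAlgebra.ad ℂ g x)) ^ k) =
      ((Nat.factorial k : ℂ)⁻¹) • f ((LieAlgebra.ad ℂ g x : Module.End ℂ g) ^ k) := by
    intro k
    rw [map_smul]
    congr 1
    show f (Matrix.toLin e e _) = _
    rw [LinearMap.toMatrix_pow, Matrix.toLin_toMatrix]
  have h4 : ψ (NormedSpace.exp (LinearMap.toMatrix e e (LieAlgebra.ad ℂ g x))) = f (expAd x) := rfl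
  rw [← h4]
  have h5 : (fun k : ℕ => ((Nat.factorial k : ℂ)⁻¹) • f ((LieAlgebra.ad ℂ g x : Module.End ℂ g) ^ k)) =
      ψ ∘ (fun k : ℕ => ((Nat.factorial k : ℂ)⁻¹) • (LinearMap.toMatrix e e (LieAlgebra.ad ℂ g x)) ^ k) := by
    funext k
    exact (h3 k).symm
  rw [h5]
  exact h2

end

theorem pDAD : StDAD.{u} := by
  intro n _ _ g _ _ _ b
  refine ⟨?_, ?_, ?_, ?_, ?_, ?_⟩
  · intro x y
    rw [killingForm_apply_apply, LinearMap.trace_eq_matrix_trace ℂ b, LinearMap.toMatrix_comp b b b]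
    rfl
  · intro hK
    rw [injective_iff_map_eq_zero]
    intro x hx
    have h1 : (LieAlgebra.ad ℂ g x : g →ₗ[ℂ] g) = 0 := by
      have h2 : LinearMap.toMatrix b b (LieAlgebra.ad ℂ g x) = 0 := hx
      exact (LinearMap.toMatrix b b).map_eq_zero_iff.1 h2
    have h3 : x ∈ LinearMap.ker (killingForm ℂ g) := by
      rw [LinearMap.mem_ker]
      apply LinearMap.ext
      intro y
      rw [killingForm_apply_apply, h1, LinearMap.zero_comp, map_zero, LinearMap.zero_apply]
    rw [LieAlgebra.IsKilling.ker_killingForm_eq_bot] at h3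
    exact (Submodule.mem_bot ℂ).1 h3
  · intro x
    have h1 := hs_expAd (LinearMap.toMatrix b b).toLinearMap x
    have h2 := hs_mat (adM b x)
    refine h1.unique ?_
    have h3 : ∀ k : ℕ, (LinearMap.toMatrix b b).toLinearMap ((LieAlgebra.ad ℂ g x : Module.End ℂ g) ^ k) =
        (adM b x) ^ k := by
      intro k
      exact (LinearMap.toMatrix_pow b (LieAlgebra.ad ℂ g x) k).symm
    simp only [h3]
    exact h2
  · intro x y
    let f : (g →ₗ[ℂ] g) →ₗ[ℂ] Matrix n n ℂ := (adM b) ∘ₗ (LinearMap.applyₗ y)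
    have h1 := hs_expAd f x
    have h2 := exp_brM (adM b x) (adM b y) (fun k => f ((LieAlgebra.ad ℂ g x : Module.End ℂ g) ^ k)) rfl (by
      intro k
      rw [pow_succ']
      show adM b ⁅x, ((LieAlgebra.ad ℂ g x : Module.End ℂ g) ^ k) y⁆ = _
      rw [adM_bracket]
      rfl)
    exact h1.unique h2
  · intro x ⟨k, hk⟩
    refine ⟨k, ?_⟩
    have h1 := LinearMap.toMatrix_pow b (LieAlgebra.ad ℂ g x) k
    rw [hk, map_zero] at h1
    exact h1
  · intro x
    rw [Matrix.rank_eq_finrank_range_toLin (adM b x) b b, adM_apply, Matrix.toLin_toMatrix]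

end Pool.Agent.Helper6.NO
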